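import Mathlib

namespace Pool.Agent.H.MP_0e398f_al

/-- A size function (degree plus one) with a reversing involution and the weak algorithm. -/
structure Setup (k R : Type*) [Field k] [Ring R] [Algebra k R] where
  sz : R → ℕ
  st : R →ₗ[k] R
  st_mul : ∀ a b, st (a * b) = st b * st a
  st_st : ∀ a, st (st a) = a
  st_one : st 1 = 1
  sz_st : ∀ a, sz (st a) = sz a
  sz_eq_zero : ∀ a, sz a = 0 ↔ a = 0
  sz_add : ∀ a b, sz (a + b) ≤ max (sz a) (sz b)
  sz_smul_le : ∀ (c : k) a, sz (c • a) ≤ sz a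
  sz_mul : ∀ a b, a ≠ 0 → b ≠ 0 → sz (a * b) + 1 = sz a + sz b
  sz_le_one : ∀ a, sz a ≤ 1 → ∃ c : k, a = c • (1 : R)
  sz_one : sz 1 = 1
  weak : ∀ a b c d, sz (a * b - c * d) < sz (a * b) → sz c ≤ sz a → ∃ t, sz (a - c * t) < sz a

namespace Setup

variable {k R : Type*} [Field k] [Ring R] [Algebra k R] (S : Setup k R)

theorem sz_zero : S.sz 0 = 0 := (S.sz_eq_zero 0).2 rfl

theorem sz_pos {a : R} (h : a ≠ 0) : 1 ≤ S.sz a := by
  have := (S.sz_eq_zero a).not.2 h
  omega

theorem ne_zero_of_pos {a : R} (h : 1 ≤ S.sz a) : a ≠ 0 := by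
  rintro rfl
  rw [S.sz_zero] at h
  omega

theorem sz_smul {c : k} (hc : c ≠ 0) (a : R) : S.sz (c • a) = S.sz a := by
  apply le_antisymm (S.sz_smul_le c a)
  have := S.sz_smul_le c⁻¹ (c • a)
  rwa [smul_smul, inv_mul_cancel₀ hc, one_smul] at this

theorem sz_neg (a : R) : S.sz (-a) = S.sz a := by
  have := S.sz_smul (c := -1) (by simp) a
  simpa using this

theorem sz_sub (a b : R) : S.sz (a - b) ≤ max (S.sz a) (S.sz b) := by
  have := S.sz_add a (-b)
  rwa [S.sz_neg, ← sub_eq_add_neg] at this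

theorem sz_sub_comm (a b : R) : S.sz (a - b) = S.sz (b - a) := by
  rw [← S.sz_neg, neg_sub]

theorem sz_eq_of_sub {a b : R} (h : S.sz (a - b) < S.sz a) : S.sz b = S.sz a := by
  have h1 := S.sz_sub a (a - b)
  rw [sub_sub_cancel] at h1
  have h2 := S.sz_add (a - b) b
  rw [sub_add_cancel] at h2
  omega

theorem sz_add_of_lt {a u : R} (h : S.sz u < S.sz a) : S.sz (a + u) = S.sz a := by
  apply S.sz_eq_of_sub
  have : a - (a + u) = -u := by abel
  rwa [this, S.sz_neg]

theorem sz_mul_le (a b : R) : S.sz (a * b) ≤ S.sz a + S.sz b - 1 := by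
  by_cases ha : a = 0
  · simp [ha, S.sz_zero]
  by_cases hb : b = 0
  · simp [hb, S.sz_zero]
  have := S.sz_mul a b ha hb
  omega

theorem st_ne_zero {a : R} (h : a ≠ 0) : S.st a ≠ 0 := by
  apply S.ne_zero_of_pos
  rw [S.sz_st]
  exact S.sz_pos h

/-- elements of size at most `n` -/
def Fil (n : ℕ) : Submodule k R where
  carrier := {u | S.sz u ≤ n}
  add_mem' := by
    intro a b ha hb
    have := S.sz_add a b
    simp only [Set.mem_setOf_eq] at *
    omega
  zero_mem' := by simp [S.sz_zero]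
  smul_mem' := by
    intro c a ha
    exact (S.sz_smul_le c a).trans ha

theorem mem_Fil {n : ℕ} {u : R} : u ∈ S.Fil n ↔ S.sz u ≤ n := Iff.rfl

/-- span of the products `u * st v` -/
def B (U V : Submodule k R) : Submodule k R :=
  Submodule.span k {w | ∃ u ∈ U, ∃ v ∈ V, w = u * S.st v}

theorem mem_B {U V : Submodule k R} {u v : R} (hu : u ∈ U) (hv : v ∈ V) :
    u * S.st v ∈ S.B U V := Submodule.subset_span ⟨u, hu, v, hv, rfl⟩

theorem B_le {U V W : Submodule k R} (h : ∀ u ∈ U, ∀ v ∈ V, u * S.st v ∈ W) : S.B U V ≤ W := by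
  apply Submodule.span_le.2
  rintro w ⟨u, hu, v, hv, rfl⟩
  exact h u hu v hv

theorem B_mono {U V U' V' : Submodule k R} (h : U ≤ U') (h' : V ≤ V') : S.B U V ≤ S.B U' V' :=
  S.B_le fun _ hu _ hv => S.mem_B (h hu) (h' hv)

theorem B_symm {U V : Submodule k R} {w : R} (h : w ∈ S.B U V) : S.st w ∈ S.B V U := by
  have : S.B U V ≤ (S.B V U).comap S.st := by
    apply S.B_le
    intro u hu v hv
    simp only [Submodule.mem_comap, S.st_mul, S.st_st]
    exact S.mem_B hv hu
  exact this h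

theorem B_sz {U V : Submodule k R} {m n : ℕ} (hU : U ≤ S.Fil m) (hV : V ≤ S.Fil n) {w : R}
    (h : w ∈ S.B U V) : S.sz w ≤ m + n - 1 := by
  have : S.B U V ≤ S.Fil (m + n - 1) := by
    apply S.B_le
    intro u hu v hv
    have h1 := S.mem_Fil.1 (hU hu)
    have h2 := S.mem_Fil.1 (hV hv)
    have h3 := S.sz_mul_le u (S.st v)
    rw [S.sz_st] at h3
    rw [S.mem_Fil]
    omega
  exact this h

theorem B_mul_left {U U' V : Submodule k R} (p : R) (hp : ∀ u ∈ U, p * u ∈ U') {w : R}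
    (h : w ∈ S.B U V) : p * w ∈ S.B U' V := by
  have : S.B U V ≤ (S.B U' V).comap (LinearMap.mulLeft k p) := by
    apply S.B_le
    intro u hu v hv
    simp only [Submodule.mem_comap, LinearMap.mulLeft_apply, ← mul_assoc]
    exact S.mem_B (hp u hu) hv
  exact this h

/-- the basic relation -/
def T (X : R → Submodule k R) (p q u v : R) : Prop :=
  S.sz u < S.sz p ∧ S.sz v < S.sz q ∧ u * S.st q - p * S.st v ∈ S.B (X p) (X q)

theorem T_symm {X : R → Submodule k R} {p q u v : R} (h : S.T X p q u v) : S.T X q p v u := by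
  refine ⟨h.2.1, h.1, ?_⟩
  have := Submodule.neg_mem _ (S.B_symm h.2.2)
  simpa [S.st_mul, S.st_st] using this

theorem T_mono {X Y : R → Submodule k R} (hXY : X ≤ Y) {p q u v : R} (h : S.T X p q u v) :
    S.T Y p q u v := ⟨h.1, h.2.1, S.B_mono (hXY p) (hXY q) h.2.2⟩

/-- the monotone operator -/
def F : (R → Submodule k R) →o (R → Submodule k R) where
  toFun X p := Submodule.span k {u | ∃ q v, S.T X p q u v}
  monotone' := by
    intro X Y h p
    apply Submodule.span_mono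
    rintro u ⟨q, v, hT⟩
    exact ⟨q, v, S.T_mono h hT⟩

/-- the canonical chain spaces -/
def N : R → Submodule k R := OrderHom.gfp S.F

theorem N_eq (p : R) : S.N p = Submodule.span k {u | ∃ q v, S.T S.N p q u v} := by
  have := congrFun (OrderHom.map_gfp S.F) p
  exact this.symm

theorem mem_N_left {p q u v : R} (h : S.T S.N p q u v) : u ∈ S.N p := by
  rw [S.N_eq]
  exact Submodule.subset_span ⟨q, v, h⟩

theorem mem_N_right {p q u v : R} (h : S.T S.N p q u v) : v ∈ S.N q :=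
  S.mem_N_left (S.T_symm h)

theorem N_le {p : R} {W : Submodule k R} (h : ∀ q u v, S.T S.N p q u v → u ∈ W) : S.N p ≤ W := by
  rw [S.N_eq]
  apply Submodule.span_le.2
  rintro u ⟨q, v, hT⟩
  exact h q u v hT

theorem N_le_Fil (p : R) : S.N p ≤ S.Fil (S.sz p - 1) := by
  apply S.N_le
  intro q u v h
  have := h.1
  rw [S.mem_Fil]
  omega

theorem sz_lt_of_mem_N {p u : R} (hp : p ≠ 0) (h : u ∈ S.N p) : S.sz u < S.sz p := by
  have := S.mem_Fil.1 (S.N_le_Fil p h)
  have := S.sz_pos hp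
  omega

theorem coind (X : R → Submodule k R) (h : ∀ p, X p ≤ S.N p ⊔ S.F (X ⊔ S.N) p) : X ≤ S.N := by
  have h1 : S.N ≤ S.F (X ⊔ S.N) := by
    have := S.F.monotone (le_sup_right : S.N ≤ X ⊔ S.N)
    have h2 : S.F S.N = S.N := OrderHom.map_gfp S.F
    rwa [h2] at this
  have : X ⊔ S.N ≤ S.N := by
    apply OrderHom.le_gfp
    apply sup_le _ h1
    intro p
    exact (h p).trans (sup_le (h1 p) le_rfl)
  exact le_sup_left.trans this

/-- generators for a two point coinduction -/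
def G (U : Submodule k R) (p : R) : Submodule k R :=
  Submodule.span k {u | ∃ q v, S.sz u < S.sz p ∧ S.sz v < S.sz q ∧
    u * S.st q - p * S.st v ∈ S.B (U ⊔ S.N p) (S.N q)}

theorem mem_G {U : Submodule k R} {p q u v : R} (h1 : S.sz u < S.sz p) (h2 : S.sz v < S.sz q)
    (h3 : u * S.st q - p * S.st v ∈ S.B (U ⊔ S.N p) (S.N q)) : u ∈ S.G U p :=
  Submodule.subset_span ⟨q, v, h1, h2, h3⟩

theorem coind2 (U₁ U₂ : Submodule k R) (p₁ p₂ u₁ u₂ : R)
    (hs1 : S.sz u₁ < S.sz p₁) (hs2 : S.sz u₂ < S.sz p₂)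
    (hB : u₁ * S.st p₂ - p₁ * S.st u₂ ∈ S.B U₁ U₂)
    (h1 : U₁ ≤ S.N p₁ ⊔ S.G U₁ p₁ ⊔ Submodule.span k {u₁})
    (h2 : U₂ ≤ S.N p₂ ⊔ S.G U₂ p₂ ⊔ Submodule.span k {u₂}) :
    U₁ ≤ S.N p₁ ∧ U₂ ≤ S.N p₂ := by
  classical
  let X : R → Submodule k R := fun p => (if p = p₁ then U₁ else ⊥) ⊔ (if p = p₂ then U₂ else ⊥)
  have e1 : U₁ ≤ X p₁ := by simp [X]
  have e2 : U₂ ≤ X p₂ := by simp [X]
  have hT : S.T (X ⊔ S.N) p₁ p₂ u₁ u₂ :=
    ⟨hs1, hs2, S.B_mono (e1.trans le_sup_left) (e2.trans le_sup_left) hB⟩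
  have hG : ∀ (U : Submodule k R) (p : R), U ≤ X p → S.G U p ≤ S.F (X ⊔ S.N) p := by
    intro U p hU
    apply Submodule.span_mono
    rintro u ⟨q, v, a1, a2, a3⟩
    exact ⟨q, v, a1, a2, S.B_mono (sup_le_sup_right hU _) le_sup_right a3⟩
  have key : X ≤ S.N := by
    apply S.coind
    intro p
    apply sup_le
    · split_ifs with hp
      · subst hp
        refine h1.trans (sup_le (sup_le le_sup_left ((hG _ _ e1).trans le_sup_right)) ?_)
        refine le_trans ?_ le_sup_right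
        apply Submodule.span_mono
        rintro u rfl
        exact ⟨_, _, hT⟩
      · exact bot_le
    · split_ifs with hp
      · subst hp
        refine h2.trans (sup_le (sup_le le_sup_left ((hG _ _ e2).trans le_sup_right)) ?_)
        refine le_trans ?_ le_sup_right
        apply Submodule.span_mono
        rintro u rfl
        exact ⟨_, _, S.T_symm hT⟩
      · exact bot_le
  exact ⟨e1.trans (key _), e2.trans (key _)⟩

theorem coind1 (U : Submodule k R) (p : R) (hp : p ≠ 0) (h : U ≤ S.N p ⊔ S.G U p) :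
    U ≤ S.N p := by
  have hs : S.sz 0 < S.sz p := by rw [S.sz_zero]; exact S.sz_pos hp
  exact (S.coind2 U ⊥ p p 0 0 hs hs (by simp) (h.trans le_sup_left) bot_le).1

theorem T_one {a : R} (h : 2 ≤ S.sz a) : S.T S.N a (S.st a) 1 1 := by
  refine ⟨by rw [S.sz_one]; omega, by rw [S.sz_one, S.sz_st]; omega, ?_⟩
  simp [S.st_st, S.st_one]

theorem one_mem_N {a : R} (h : 2 ≤ S.sz a) : (1 : R) ∈ S.N a := S.mem_N_left (S.T_one h)

theorem N_affine_le {a u : R} (ha : a ≠ 0) (hu : u ∈ S.N a) {c : k} (hc : c ≠ 0) :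
    S.N a ≤ S.N (c • a + u) := by
  have hs : S.sz (c • a + u) = S.sz a := by
    rw [S.sz_add_of_lt, S.sz_smul hc]
    rw [S.sz_smul hc]
    exact S.sz_lt_of_mem_N ha hu
  have hne : c • a + u ≠ 0 := S.ne_zero_of_pos (hs ▸ S.sz_pos ha)
  apply S.coind1 _ _ hne
  refine le_trans ?_ le_sup_right
  apply S.N_le
  intro q ν μ hT
  have hμ := S.mem_N_right hT
  have : c • ν ∈ S.G (S.N a) (c • a + u) := by
    apply S.mem_G (q := q) (v := μ)
    · rw [hs, S.sz_smul hc]; exact hT.1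
    · exact hT.2.1
    · apply S.B_mono le_sup_left le_rfl
      have e : c • ν * S.st q - (c • a + u) * S.st μ =
          c • (ν * S.st q - a * S.st μ) - u * S.st μ := by
        simp only [smul_mul_assoc, add_mul, smul_sub]; abel
      rw [e]
      exact Submodule.sub_mem _ (Submodule.smul_mem _ _ hT.2.2) (S.mem_B hu hμ)
  have := Submodule.smul_mem _ c⁻¹ this
  rwa [smul_smul, inv_mul_cancel₀ hc, one_smul] at this

theorem N_affine {a u : R} (ha : a ≠ 0) (hu : u ∈ S.N a) {c : k} (hc : c ≠ 0) :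
    S.N (c • a + u) = S.N a := by
  apply le_antisymm _ (S.N_affine_le ha hu hc)
  have hs : S.sz (c • a + u) = S.sz a := by
    rw [S.sz_add_of_lt, S.sz_smul hc]
    rw [S.sz_smul hc]
    exact S.sz_lt_of_mem_N ha hu
  have hne : c • a + u ≠ 0 := S.ne_zero_of_pos (hs ▸ S.sz_pos ha)
  have hu' : -(c⁻¹ • u) ∈ S.N (c • a + u) :=
    Submodule.neg_mem _ (Submodule.smul_mem _ _ (S.N_affine_le ha hu hc hu))
  have := S.N_affine_le hne hu' (inv_ne_zero hc)
  rwa [smul_add, smul_smul, inv_mul_cancel₀ hc, one_smul, add_neg_cancel_right] at this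

theorem N_le_of_mem {a p : R} (ha : a ≠ 0) (hp : p ∈ S.N a) : S.N p ≤ S.N a := by
  apply S.coind1 _ _ ha
  refine le_trans ?_ le_sup_right
  apply S.N_le
  intro q ν μ hT
  have hμ := S.mem_N_right hT
  apply S.mem_G (q := q) (v := 0)
  · exact hT.1.trans (S.sz_lt_of_mem_N ha hp)
  · rw [S.sz_zero]; have := hT.2.1; omega
  · have e : ν * S.st q - a * S.st 0 = (ν * S.st q - p * S.st μ) + p * S.st μ := by simp
    rw [e]
    exact Submodule.add_mem _ (S.B_mono le_sup_left le_rfl hT.2.2)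
      (S.mem_B (Submodule.mem_sup_right hp) hμ)

theorem mul_mem_N {a b u : R} (ha : a ≠ 0) (hb : b ≠ 0) (hu : u ∈ S.N b) :
    a * u ∈ S.N (a * b) := by
  have hab := S.sz_mul a b ha hb
  have ha1 := S.sz_pos ha
  have hb1 := S.sz_pos hb
  have hne : a * b ≠ 0 := S.ne_zero_of_pos (by omega)
  have key : (S.N b).map (LinearMap.mulLeft k a) ≤ S.N (a * b) := by
    apply S.coind1 _ _ hne
    refine le_trans ?_ le_sup_right
    rw [Submodule.map_le_iff_le_comap]
    apply S.N_le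
    intro q ν μ hT
    simp only [Submodule.mem_comap, LinearMap.mulLeft_apply]
    apply S.mem_G (q := q) (v := μ)
    · have := S.sz_mul_le a ν
      have := hT.1
      omega
    · exact hT.2.1
    · have e : a * ν * S.st q - a * b * S.st μ = a * (ν * S.st q - b * S.st μ) := by
        simp only [mul_sub, mul_assoc]
      rw [e]
      apply S.B_mul_left a _ hT.2.2
      intro w hw
      exact Submodule.mem_sup_left ⟨w, hw, rfl⟩
  exact key ⟨u, hu, rfl⟩

end Setup

end Pool.Agent.H.MP_0e398f_al
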