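import Pool.Agent.H.MP_0e398f_al.A

namespace Pool.Agent.H.MP_0e398f_al

namespace Setup

variable {k R : Type*} [Field k] [Ring R] [Algebra k R] (S : Setup k R)

/-- `ν` has maximal size in `N a` -/
def Mx (a ν : R) : Prop := ∀ u ∈ S.N a, S.sz u ≤ S.sz ν

/-- top parts are proportional -/
def Pr (a ν : R) : Prop := ∀ u ∈ S.N a, ∃ c : k, S.sz (u - c • ν) < S.sz ν

/-- the lower part -/
def Lo (a ν : R) : Submodule k R := S.N a ⊓ S.Fil (S.sz ν - 1)

theorem top {a c ν μ : R} (hT : S.T S.N a c ν μ) (hν : ν ≠ 0) (hM : S.Mx a ν) :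
    μ ≠ 0 ∧ S.sz a + S.sz μ = S.sz ν + S.sz c ∧ ∃ t, S.sz (a - ν * t) < S.sz a := by
  obtain ⟨h1, h2, h3⟩ := hT
  have hc : c ≠ 0 := S.ne_zero_of_pos (by omega)
  have ha : a ≠ 0 := S.ne_zero_of_pos (by omega)
  have hB := S.B_sz (m := S.sz ν) (fun u hu => S.mem_Fil.2 (hM u hu)) (S.N_le_Fil c) h3
  have h4 := S.sz_mul ν (S.st c) hν (S.st_ne_zero hc)
  rw [S.sz_st] at h4
  have hν1 := S.sz_pos hν
  have h5 : S.sz (ν * S.st c - a * S.st μ) < S.sz (ν * S.st c) := by omega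
  have h6 := S.sz_eq_of_sub h5
  have hμ : μ ≠ 0 := by
    rintro rfl
    simp [S.sz_zero] at h6
    omega
  have h7 := S.sz_mul a (S.st μ) ha (S.st_ne_zero hμ)
  rw [S.sz_st] at h7
  refine ⟨hμ, by omega, ?_⟩
  apply S.weak a (S.st μ) ν (S.st c) _ h1.le
  rw [S.sz_sub_comm, h6]
  exact h5

theorem prop_of {a c ν μ : R} (hT : S.T S.N a c ν μ) (hν : ν ≠ 0) (hM : S.Mx a ν) :
    S.Pr a ν := by
  have hν1 := S.sz_pos hν
  have key : S.N a ≤ S.Fil (S.sz ν - 1) ⊔ Submodule.span k {ν} := by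
    apply S.N_le
    intro q u v hT'
    have hu := hM u (S.mem_N_left hT')
    rcases hu.lt_or_eq with hu | hu
    · exact Submodule.mem_sup_left (S.mem_Fil.2 (by omega))
    have hu0 : u ≠ 0 := S.ne_zero_of_pos (by omega)
    obtain ⟨-, -, t, ht⟩ := S.top hT hν hM
    obtain ⟨-, -, t', ht'⟩ := S.top hT' hu0 (fun w hw => hu ▸ hM w hw)
    have e1 := S.sz_eq_of_sub ht'
    have e2 : u * t' - ν * t = (a - ν * t) - (a - u * t') := by abel
    have e3 := S.sz_sub (a - ν * t) (a - u * t')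
    obtain ⟨g, hg⟩ := S.weak u t' ν t (by rw [e2]; omega) hu.ge
    have e4 := S.sz_eq_of_sub hg
    have hg0 : g ≠ 0 := by
      rintro rfl
      simp [S.sz_zero] at e4
      omega
    have e5 := S.sz_mul ν g hν hg0
    obtain ⟨x, rfl⟩ := S.sz_le_one g (by omega)
    have e6 : u = (u - ν * (x • (1 : R))) + x • ν := by simp
    rw [e6]
    exact Submodule.add_mem_sup (S.mem_Fil.2 (by omega))
      (Submodule.smul_mem _ _ (Submodule.mem_span_singleton_self ν))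
  intro u hu
  obtain ⟨y, hy, z, hz, rfl⟩ := Submodule.mem_sup.1 (key hu)
  obtain ⟨x, rfl⟩ := Submodule.mem_span_singleton.1 hz
  refine ⟨x, ?_⟩
  have := S.mem_Fil.1 hy
  rw [add_sub_cancel_right]
  omega

theorem exists_max {a : R} (h : 2 ≤ S.sz a) :
    ∃ c ν μ, S.T S.N a c ν μ ∧ ν ≠ 0 ∧ S.Mx a ν := by
  classical
  let P : ℕ → Prop := fun n => ∃ c ν μ, S.T S.N a c ν μ ∧ S.sz ν = n
  have h1 : P 1 := ⟨_, _, _, S.T_one h, S.sz_one⟩
  have hle : 1 ≤ S.sz a := by omega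
  obtain ⟨c, ν, μ, hT, hν⟩ := Nat.findGreatest_spec (P := P) hle h1
  have h2 := Nat.le_findGreatest (P := P) hle h1
  refine ⟨c, ν, μ, hT, S.ne_zero_of_pos (by omega), ?_⟩
  have : S.N a ≤ S.Fil (S.sz ν) := by
    apply S.N_le
    intro q u v hT'
    rw [S.mem_Fil, hν]
    exact Nat.le_findGreatest (P := P) hT'.1.le ⟨q, u, v, hT', rfl⟩
  exact fun u hu => this hu

theorem mem_Lo {a ν u : R} (hν : ν ≠ 0) : u ∈ S.Lo a ν ↔ u ∈ S.N a ∧ S.sz u < S.sz ν := by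
  have := S.sz_pos hν
  simp only [Lo, Submodule.mem_inf, S.mem_Fil]
  constructor
  · rintro ⟨h1, h2⟩; exact ⟨h1, by omega⟩
  · rintro ⟨h1, h2⟩; exact ⟨h1, by omega⟩

theorem split {a ν u : R} (hν : ν ≠ 0) (hN : ν ∈ S.N a) (hP : S.Pr a ν) (hu : u ∈ S.N a) :
    ∃ c : k, u - c • ν ∈ S.Lo a ν := by
  obtain ⟨c, hc⟩ := hP u hu
  exact ⟨c, (S.mem_Lo hν).2 ⟨Submodule.sub_mem _ hu (Submodule.smul_mem _ _ hN), hc⟩⟩

theorem B_split {a ν : R} (hν : ν ≠ 0) (hN : ν ∈ S.N a) (hP : S.Pr a ν) (V : Submodule k R)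
    {w : R} (hw : w ∈ S.B (S.N a) V) : ∃ v ∈ V, w - ν * S.st v ∈ S.B (S.Lo a ν) V := by
  have : S.B (S.N a) V ≤ S.B (S.Lo a ν) V ⊔ V.map ((LinearMap.mulLeft k ν).comp S.st) := by
    apply S.B_le
    intro u hu v hv
    obtain ⟨c, hc⟩ := S.split hν hN hP hu
    have e : u * S.st v = (u - c • ν) * S.st v + ν * S.st (c • v) := by
      simp [sub_mul]
    rw [e]
    exact Submodule.add_mem_sup (S.mem_B hc hv) ⟨c • v, Submodule.smul_mem _ _ hv, rfl⟩
  obtain ⟨y, hy, z, ⟨v, hv, rfl⟩, rfl⟩ := Submodule.mem_sup.1 (this hw)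
  refine ⟨v, hv, ?_⟩
  simpa using hy

theorem transfer {a ν s c u v : R} {U : Submodule k R} (hν : ν ≠ 0) (hN : ν ∈ S.N a)
    (hP : S.Pr a ν) (hU : S.Lo a ν ≤ U) (hs : a - ν * s ∈ U) (hF : U ≤ S.Fil (S.sz ν - 1))
    (hT : S.T S.N a c u v) (x : k) (hx : S.sz (u - x • ν) < S.sz ν) :
    ∃ v' ∈ S.N c, S.sz (v * S.st s + v' - x • c) < S.sz c ∧
      (u - x • ν) * S.st c - ν * S.st (v * S.st s + v' - x • c) ∈ S.B U (S.N c) := by
  obtain ⟨v', hv', hw⟩ := S.B_split hν hN hP _ hT.2.2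
  have hv := S.mem_N_right hT
  have hB : (u - x • ν) * S.st c - ν * S.st (v * S.st s + v' - x • c) ∈ S.B U (S.N c) := by
    have e : (u - x • ν) * S.st c - ν * S.st (v * S.st s + v' - x • c) =
        (u * S.st c - a * S.st v - ν * S.st v') + (a - ν * s) * S.st v := by
      simp only [map_sub, map_add, map_smul, S.st_mul, S.st_st, sub_mul, mul_sub, mul_add,
        smul_mul_assoc, mul_smul_comm, mul_assoc]
      abel
    rw [e]
    exact Submodule.add_mem _ (S.B_mono hU le_rfl hw) (S.mem_B hs hv)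
  refine ⟨v', hv', ?_, hB⟩
  have h1 := S.B_sz hF (S.N_le_Fil c) hB
  have h2 := S.sz_mul_le (u - x • ν) (S.st c)
  rw [S.sz_st] at h2
  have hc := hT.2.1
  have hν1 := S.sz_pos hν
  generalize v * S.st s + v' - x • c = w at *
  by_cases hw0 : w = 0
  · rw [hw0, S.sz_zero]; omega
  have h3 := S.sz_mul ν (S.st w) hν (S.st_ne_zero hw0)
  rw [S.sz_st] at h3
  have h4 := S.sz_sub ((u - x • ν) * S.st c) ((u - x • ν) * S.st c - ν * S.st w)
  rw [sub_sub_cancel] at h4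
  omega

theorem Lo_le_G {a ν s : R} {U : Submodule k R} (hν : ν ≠ 0) (hN : ν ∈ S.N a)
    (hP : S.Pr a ν) (hU : S.Lo a ν ≤ U) (hs : a - ν * s ∈ U) (hF : U ≤ S.Fil (S.sz ν - 1)) :
    S.Lo a ν ≤ S.G U ν := by
  have hν1 := S.sz_pos hν
  have hG : S.G U ν ≤ S.Fil (S.sz ν - 1) := by
    apply Submodule.span_le.2
    rintro u ⟨q, v, h1, -, -⟩
    exact S.mem_Fil.2 (by omega)
  have key : S.N a ≤ S.G U ν ⊔ Submodule.span k {ν} := by
    apply S.N_le
    intro q u v hT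
    obtain ⟨x, hx⟩ := hP u (S.mem_N_left hT)
    obtain ⟨v', -, h1, h2⟩ := S.transfer hν hN hP hU hs hF hT x hx
    have e : u = (u - x • ν) + x • ν := by simp
    rw [e]
    exact Submodule.add_mem_sup (S.mem_G hx h1 (S.B_mono le_sup_left le_rfl h2))
      (Submodule.smul_mem _ _ (Submodule.mem_span_singleton_self ν))
  intro u hu
  obtain ⟨hu1, hu2⟩ := (S.mem_Lo hν).1 hu
  obtain ⟨y, hy, z, hz, rfl⟩ := Submodule.mem_sup.1 (key hu1)
  obtain ⟨x, rfl⟩ := Submodule.mem_span_singleton.1 hz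
  by_cases hx : x = 0
  · simpa [hx] using hy
  have h1 := S.mem_Fil.1 (hG hy)
  have h2 := S.sz_smul hx ν
  have h3 := S.sz_add_of_lt (a := x • ν) (u := y) (by omega)
  rw [add_comm] at hu2
  omega

theorem divide {ν μ : R} (hμ : μ ≠ 0) :
    ∀ (n : ℕ) (a c : R), S.sz a = n → S.sz (ν * S.st c - a * S.st μ) + 2 ≤ S.sz ν + S.sz μ →
      1 ≤ S.sz ν → ∃ t, S.sz (a - ν * t) < S.sz ν := by
  intro n
  induction n using Nat.strong_induction_on with
  | _ n ih =>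
    intro a c hn h hν
    by_cases hlt : S.sz a < S.sz ν
    · exact ⟨0, by simpa using hlt⟩
    have ha : a ≠ 0 := S.ne_zero_of_pos (by omega)
    have h1 := S.sz_mul a (S.st μ) ha (S.st_ne_zero hμ)
    rw [S.sz_st] at h1
    obtain ⟨t, ht⟩ := S.weak a (S.st μ) ν (S.st c) (by rw [S.sz_sub_comm]; omega) (by omega)
    obtain ⟨t', ht'⟩ := ih _ (hn ▸ ht) (a - ν * t) (c - μ * S.st t) rfl (by
      have e : ν * S.st (c - μ * S.st t) - (a - ν * t) * S.st μ = ν * S.st c - a * S.st μ := by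
        simp only [map_sub, S.st_mul, S.st_st, mul_sub, sub_mul, mul_assoc]
        abel
      rw [e]; exact h) hν
    refine ⟨t + t', ?_⟩
    rwa [mul_add, ← sub_sub]

theorem caseA {a c ν μ : R} (hT : S.T S.N a c ν μ) (hν : ν ≠ 0) (hM : S.Mx a ν)
    (hM' : S.Mx c μ) : ∃ s, a - ν * s ∈ S.Lo a ν ∧ S.Lo a ν ≤ S.N ν := by
  obtain ⟨hμ, hsz, -⟩ := S.top hT hν hM
  have hP := S.prop_of hT hν hM
  have hP' := S.prop_of (S.T_symm hT) hμ hM'
  have hN := S.mem_N_left hT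
  have hN' := S.mem_N_right hT
  have hν1 := S.sz_pos hν
  have hμ1 := S.sz_pos hμ
  have ha : a ≠ 0 := S.ne_zero_of_pos (by have := hT.1; omega)
  obtain ⟨v0, hv0, h1⟩ := S.B_split hν hN hP _ hT.2.2
  obtain ⟨u0, hu0, h2⟩ := S.B_split hμ hN' hP' _ (S.B_symm h1)
  have h3 := S.B_symm h2
  have e : S.st (S.st (ν * S.st c - a * S.st μ - ν * S.st v0) - μ * S.st u0) =
      ν * S.st (c - v0) - (a + u0) * S.st μ := by
    simp only [map_sub, S.st_mul, S.st_st, mul_sub, add_mul]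
    abel
  rw [e] at h3
  have hs := S.B_sz (inf_le_right : S.Lo a ν ≤ _) (inf_le_right : S.Lo c μ ≤ _) h3
  obtain ⟨t, ht⟩ := S.divide hμ _ (a + u0) (c - v0) rfl (by omega) hν1
  obtain ⟨x, hx⟩ := S.split hμ hN' hP' hv0
  set a' := a + u0 - ν * t with ha'
  set c' := c - v0 - μ * S.st t with hc'
  have e2 : ν * S.st (c - v0) - (a + u0) * S.st μ = -(a' * S.st μ - ν * S.st c') := by
    simp only [ha', hc', map_sub, S.st_mul, S.st_st, mul_sub, sub_mul, mul_assoc]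
    abel
  rw [e2] at h3 hs
  rw [S.sz_neg] at hs
  replace h3 := (Submodule.neg_mem_iff _).1 h3
  have hc's : S.sz c' < S.sz μ := by
    by_cases h0 : c' = 0
    · rw [h0, S.sz_zero]; omega
    have q1 := S.sz_mul ν (S.st c') hν (S.st_ne_zero h0)
    have q2 := S.sz_mul_le a' (S.st μ)
    rw [S.sz_st] at q1 q2
    have q3 := S.sz_sub (a' * S.st μ) (a' * S.st μ - ν * S.st c')
    rw [sub_sub_cancel] at q3
    omega
  have hF1 : S.Lo a ν ⊔ Submodule.span k {a'} ≤ S.Fil (S.sz ν - 1) :=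
    sup_le inf_le_right ((Submodule.span_singleton_le_iff_mem _ _).2 (S.mem_Fil.2 (by omega)))
  have hF2 : S.Lo c μ ⊔ Submodule.span k {c'} ≤ S.Fil (S.sz μ - 1) :=
    sup_le inf_le_right ((Submodule.span_singleton_le_iff_mem _ _).2 (S.mem_Fil.2 (by omega)))
  have hs1 : a - ν * t ∈ S.Lo a ν ⊔ Submodule.span k {a'} := by
    have : a - ν * t = -u0 + a' := by rw [ha']; abel
    rw [this]
    exact Submodule.add_mem_sup (Submodule.neg_mem _ hu0) (Submodule.mem_span_singleton_self _)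
  have hs2 : c - μ * (S.st t + x • 1) ∈ S.Lo c μ ⊔ Submodule.span k {c'} := by
    have : c - μ * (S.st t + x • 1) = (v0 - x • μ) + c' := by
      rw [hc']; simp only [mul_add, mul_smul_comm, mul_one]; abel
    rw [this]
    exact Submodule.add_mem_sup hx (Submodule.mem_span_singleton_self _)
  have g1 := S.Lo_le_G hν hN hP le_sup_left hs1 hF1
  have g2 := S.Lo_le_G hμ hN' hP' le_sup_left hs2 hF2
  obtain ⟨k1, -⟩ := S.coind2 _ _ ν μ a' c' ht hc's (S.B_mono le_sup_left le_sup_left h3)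
    (sup_le_sup_right (g1.trans le_sup_right) _) (sup_le_sup_right (g2.trans le_sup_right) _)
  refine ⟨t, (S.mem_Lo hν).2 ⟨S.N_le_of_mem ha hN (k1 hs1), ?_⟩, le_sup_left.trans k1⟩
  have := S.mem_Fil.1 (hF1 hs1)
  omega

theorem main : ∀ (e : ℕ) (a c ν μ : R), S.T S.N a c ν μ → ν ≠ 0 → S.Mx a ν →
    S.sz a = S.sz ν + e → ∃ s, a - ν * s ∈ S.Lo a ν ∧ S.Lo a ν ≤ S.N ν := by
  intro e
  induction e using Nat.strong_induction_on with
  | _ e ih =>
    intro a c ν μ hT hν hM he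
    by_cases hM' : S.Mx c μ
    · exact S.caseA hT hν hM hM'
    exfalso
    obtain ⟨hμ, hsz, -⟩ := S.top hT hν hM
    have hμ1 := S.sz_pos hμ
    have hc2 : 2 ≤ S.sz c := by have := hT.2.1; omega
    obtain ⟨a2, μ2, ν2, hT2, hμ2, hM2⟩ := S.exists_max hc2
    have hlt : S.sz μ < S.sz μ2 := by
      by_contra hge
      exact hM' fun w hw => (hM2 w hw).trans (not_lt.1 hge)
    have hl2 := hT2.1
    obtain ⟨s, hs, hL⟩ := ih (S.sz c - S.sz μ2) (by omega) c a2 μ2 ν2 hT2 hμ2 hM2 (by omega)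
    obtain ⟨v', hv', h1, h2⟩ := S.transfer hμ2 (S.mem_N_left hT2) (S.prop_of hT2 hμ2 hM2) le_rfl hs
      inf_le_right (S.T_symm hT) 0 (by simpa using hlt)
    simp only [zero_smul, sub_zero] at h1 h2
    have h3 : ν * S.st s + v' ∈ S.N a :=
      S.mem_N_right (p := μ2) (u := μ) ⟨hlt, h1, S.B_mono hL le_rfl h2⟩
    have h4 : ν * S.st s ∈ S.N a := by
      have := Submodule.sub_mem _ h3 hv'
      rwa [add_sub_cancel_right] at this
    have h5 := hM _ h4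
    have h6 := ((S.mem_Lo hμ2).1 hs).2
    have h7 := S.sz_eq_of_sub (a := c) (b := μ2 * s) (by omega)
    have hs0 : s ≠ 0 := by
      rintro rfl
      simp [S.sz_zero] at h7
      omega
    have h8 := S.sz_mul μ2 s hμ2 hs0
    have h9 := S.sz_mul ν (S.st s) hν (S.st_ne_zero hs0)
    rw [S.sz_st] at h9
    omega

/-- the structure theorem -/
theorem struct {a : R} (h : 2 ≤ S.sz a) :
    ∃ ν s, ν ≠ 0 ∧ S.N a = S.N ν ⊔ Submodule.span k {ν} ∧ a - ν * s ∈ S.N ν := by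
  obtain ⟨c, ν, μ, hT, hν, hM⟩ := S.exists_max h
  have hl := hT.1
  have ha : a ≠ 0 := S.ne_zero_of_pos (by omega)
  obtain ⟨s, hs, hL⟩ := S.main (S.sz a - S.sz ν) a c ν μ hT hν hM (by omega)
  have hN := S.mem_N_left hT
  refine ⟨ν, s, hν, le_antisymm ?_ ?_, hL hs⟩
  · intro u hu
    obtain ⟨x, hx⟩ := S.split hν hN (S.prop_of hT hν hM) hu
    have e : u = (u - x • ν) + x • ν := by simp
    rw [e]
    exact Submodule.add_mem_sup (hL hx)
      (Submodule.smul_mem _ _ (Submodule.mem_span_singleton_self ν))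
  · exact sup_le (S.N_le_of_mem ha hN) ((Submodule.span_singleton_le_iff_mem _ _).2 hN)

end Setup

end Pool.Agent.H.MP_0e398f_al
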