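import Pool.Agent.H.MP_0e398f_al.B

namespace Pool.Agent.H.MP_0e398f_al

namespace Setup

variable {k R : Type*} [Field k] [Ring R] [Algebra k R] (S : Setup k R)

/-- the full chain space -/
def Np (p : R) : Submodule k R := S.N p ⊔ Submodule.span k {p}

theorem mem_Np {p u : R} : u ∈ S.Np p ↔ ∃ c : k, ∃ δ ∈ S.N p, u = c • p + δ := by
  constructor
  · intro h
    obtain ⟨y, hy, z, hz, rfl⟩ := Submodule.mem_sup.1 h
    obtain ⟨x, rfl⟩ := Submodule.mem_span_singleton.1 hz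
    exact ⟨x, y, hy, add_comm _ _⟩
  · rintro ⟨c, δ, hδ, rfl⟩
    rw [add_comm]
    exact Submodule.add_mem_sup hδ (Submodule.smul_mem _ _ (Submodule.mem_span_singleton_self p))

theorem self_mem_Np (p : R) : p ∈ S.Np p := S.mem_Np.2 ⟨1, 0, Submodule.zero_mem _, by simp⟩

theorem sz_le_of_mem_Np {p u : R} (h : u ∈ S.Np p) : S.sz u ≤ S.sz p := by
  obtain ⟨c, δ, hδ, rfl⟩ := S.mem_Np.1 h
  have h1 := S.mem_Fil.1 (S.N_le_Fil p hδ)
  have h2 := S.sz_smul_le c p
  have h3 := S.sz_add (c • p) δ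
  omega

theorem Np_affine {a u : R} (ha : a ≠ 0) (hu : u ∈ S.N a) {c : k} (hc : c ≠ 0) :
    S.Np (c • a + u) = S.Np a := by
  have h := S.N_affine ha hu hc
  apply le_antisymm
  · apply sup_le (h ▸ le_sup_left)
    rw [Submodule.span_singleton_le_iff_mem]
    exact S.mem_Np.2 ⟨c, u, hu, rfl⟩
  · apply sup_le (h ▸ le_sup_left)
    rw [Submodule.span_singleton_le_iff_mem]
    refine S.mem_Np.2 ⟨c⁻¹, -(c⁻¹ • u), ?_, ?_⟩
    · rw [h]; exact Submodule.neg_mem _ (Submodule.smul_mem _ _ hu)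
    · rw [smul_add, smul_smul, inv_mul_cancel₀ hc, one_smul, add_neg_cancel_right]

/-- atoms -/
def At (t : R) : Prop := 2 ≤ S.sz t ∧ ∀ w ∈ S.N t, S.sz w ≤ 1

theorem At_smul {t : R} (h : S.At t) {c : k} (hc : c ≠ 0) : S.At (c • t) := by
  have ht : t ≠ 0 := S.ne_zero_of_pos (by have := h.1; omega)
  have := S.N_affine ht (Submodule.zero_mem _) hc
  rw [add_zero] at this
  exact ⟨by rw [S.sz_smul hc]; exact h.1, this ▸ h.2⟩

theorem At_of_two {t : R} (h : S.sz t = 2) : S.At t := by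
  refine ⟨h.ge, fun w hw => ?_⟩
  have := S.mem_Fil.1 (S.N_le_Fil t hw)
  omega

/-- good decompositions -/
def Good (a ν s : R) : Prop := ν ≠ 0 ∧ S.At s ∧ S.N a = S.Np ν ∧ a - ν * s ∈ S.N a

theorem struct' {a : R} (h : 2 ≤ S.sz a) :
    ∃ ν s, S.Good a ν s ∧ a - ν * s ∈ S.N ν := by
  obtain ⟨ν, s, hν, h1, h2⟩ := S.struct h
  have ha : a ≠ 0 := S.ne_zero_of_pos (by omega)
  have h3 : a - ν * s ∈ S.N a := by rw [h1]; exact Submodule.mem_sup_left h2
  have hνa : ν ∈ S.N a := by rw [h1]; exact S.self_mem_Np ν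
  have h4 := S.sz_lt_of_mem_N ha hνa
  have h5 := S.sz_eq_of_sub (S.sz_lt_of_mem_N ha h3)
  have hs0 : s ≠ 0 := by
    rintro rfl
    simp [S.sz_zero] at h5
    omega
  have h6 := S.sz_mul ν s hν hs0
  refine ⟨ν, s, ⟨hν, ⟨by omega, ?_⟩, h1, h3⟩, h2⟩
  intro w hw
  have h7 := S.mul_mem_N hν hs0 hw
  have h8 := S.N_affine ha (Submodule.neg_mem _ h3) (one_ne_zero (α := k))
  have e : (1 : k) • a + -(a - ν * s) = ν * s := by simp
  rw [e] at h8
  rw [h8, h1] at h7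
  have h9 := S.sz_le_of_mem_Np h7
  by_cases hw0 : w = 0
  · rw [hw0, S.sz_zero]; omega
  have := S.sz_mul ν w hν hw0
  omega

theorem Good.sz {S : Setup k R} {a ν s : R} (h : S.Good a ν s) :
    a ≠ 0 ∧ S.sz ν < S.sz a ∧ S.sz (a - ν * s) < S.sz a ∧ S.sz a + 1 = S.sz ν + S.sz s := by
  obtain ⟨hν, hs, h1, h3⟩ := h
  have hνa : ν ∈ S.N a := by rw [h1]; exact S.self_mem_Np ν
  have h0 := S.mem_Fil.1 (S.N_le_Fil a hνa)
  have hν1 := S.sz_pos hν
  have ha : a ≠ 0 := S.ne_zero_of_pos (by omega)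
  have h4 := S.sz_lt_of_mem_N ha h3
  have h5 := S.sz_eq_of_sub h4
  have hs0 : s ≠ 0 := S.ne_zero_of_pos (by have := hs.1; omega)
  have h6 := S.sz_mul ν s hν hs0
  exact ⟨ha, by omega, h4, by omega⟩

theorem At_st {t : R} (h : S.At t) : S.At (S.st t) := by
  have h2 : 2 ≤ S.sz (S.st t) := by rw [S.sz_st]; exact h.1
  obtain ⟨ν, s, hG, hu⟩ := S.struct' h2
  obtain ⟨-, g1, -, g3⟩ := hG.sz
  have hs := hG.2.1.1
  refine ⟨h2, ?_⟩
  by_cases hν : 2 ≤ S.sz ν
  · exfalso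
    have hT : S.T S.N t ν (S.st s) 1 := by
      rw [S.sz_st] at g1 g3
      refine ⟨by rw [S.sz_st]; omega, by rw [S.sz_one]; omega, ?_⟩
      have e : S.st s * S.st ν - t * S.st 1 = -(1 * S.st (S.st t - ν * s)) := by
        simp [S.st_mul, S.st_st, S.st_one]
      rw [e]
      exact Submodule.neg_mem _ (S.mem_B (S.one_mem_N h.1) hu)
    have := h.2 _ (S.mem_N_left hT)
    rw [S.sz_st] at this
    omega
  · intro w hw
    rw [hG.2.2.1] at hw
    have := S.sz_le_of_mem_Np hw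
    omega

theorem uniq {p t δ τ : R} (hp : p ≠ 0) (ht : S.At t) (hδ : δ ∈ S.N p) (hτ : S.sz τ < S.sz t)
    (h : δ * t - p * τ ∈ S.N p) : S.sz τ ≤ 1 := by
  have ht' := S.At_st ht
  have hT : S.T S.N p (S.st t) δ (S.st τ) := by
    refine ⟨S.sz_lt_of_mem_N hp hδ, by rwa [S.sz_st, S.sz_st], ?_⟩
    have := S.mem_B h (S.one_mem_N ht'.1)
    simpa [S.st_st, S.st_one] using this
  have := ht'.2 _ (S.mem_N_right hT)
  rwa [S.sz_st] at this

theorem good_mul {p t : R} (hp : p ≠ 0) (ht : S.At t) : S.Good (p * t) p t := by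
  have ht0 : t ≠ 0 := S.ne_zero_of_pos (by have := ht.1; omega)
  have h1 := S.sz_mul p t hp ht0
  have hp1 := S.sz_pos hp
  have ht2 := ht.1
  obtain ⟨ν, s, hG, hu⟩ := S.struct' (a := p * t) (by omega)
  obtain ⟨-, g1, -, g3⟩ := hG.sz
  have h2 := S.mul_mem_N hp ht0 (S.one_mem_N ht.1)
  rw [mul_one, hG.2.2.1] at h2
  obtain ⟨c, δ, hδ, e⟩ := S.mem_Np.1 h2
  refine ⟨hp, ht, ?_, by simp⟩
  by_cases hc : c = 0
  · exfalso
    rw [hc, zero_smul, zero_add] at e
    subst e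
    have h3 := S.sz_lt_of_mem_N hG.1 hδ
    have h4 := S.uniq hG.1 ht hδ (by omega) hu
    have := hG.2.1.1
    omega
  · rw [hG.2.2.1, e, S.Np_affine hG.1 hδ hc]

theorem good_uniq {a ν s ν' s' : R} (h : S.Good a ν s) (h' : S.Good a ν' s') :
    ∃ (c : k) (δ : R) (x : k), c ≠ 0 ∧ δ ∈ S.N ν ∧ ν' = c • ν + δ ∧ s = c • s' + x • 1 ∧
      δ * s' ∈ S.Np ν := by
  obtain ⟨-, g1, -, g3⟩ := h.sz
  obtain ⟨-, g1', -, g3'⟩ := h'.sz
  have e1 : ν' ∈ S.Np ν := by rw [← h.2.2.1, h'.2.2.1]; exact S.self_mem_Np _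
  have e2 : ν ∈ S.Np ν' := by rw [← h'.2.2.1, h.2.2.1]; exact S.self_mem_Np _
  have e3 := S.sz_le_of_mem_Np e1
  have e4 := S.sz_le_of_mem_Np e2
  obtain ⟨c, δ, hδ, e⟩ := S.mem_Np.1 e1
  have hδs := S.sz_lt_of_mem_N h.1 hδ
  have hc : c ≠ 0 := by
    rintro rfl
    rw [zero_smul, zero_add] at e
    subst e
    omega
  have e5 : (a - ν' * s') - (a - ν * s) ∈ S.Np ν := by
    rw [← h.2.2.1]
    exact Submodule.sub_mem _ h'.2.2.2 h.2.2.2
  obtain ⟨y, ε, hε, e6⟩ := S.mem_Np.1 e5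
  have e7 : δ * s' - ν * (s - c • s' - y • 1) = -ε := by
    have : ε = (a - ν' * s') - (a - ν * s) - y • ν := by rw [e6]; abel
    rw [this, e]
    simp only [mul_sub, add_mul, mul_smul_comm, smul_mul_assoc, mul_one]
    abel
  have hεs := S.sz_lt_of_mem_N h.1 hε
  have hs' := h'.2.1.1
  have hτ : S.sz (s - c • s' - y • 1) < S.sz s' := by
    generalize s - c • s' - y • 1 = τ at e7
    by_cases h0 : τ = 0
    · rw [h0, S.sz_zero]; omega
    have q1 := S.sz_mul ν τ h.1 h0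
    have q2 := S.sz_mul_le δ s'
    have q3 := S.sz_add (δ * s') ε
    have q4 : δ * s' + ε = ν * τ := by rw [← neg_neg ε, ← e7]; abel
    rw [q4] at q3
    omega
  have h4 := S.uniq h.1 h'.2.1 hδ hτ (by rw [e7]; exact Submodule.neg_mem _ hε)
  obtain ⟨z, hz⟩ := S.sz_le_one _ h4
  refine ⟨c, δ, y + z, hc, hδ, e, ?_, ?_⟩
  · rw [add_smul, ← hz]; abel
  · refine S.mem_Np.2 ⟨z, -ε, Submodule.neg_mem _ hε, ?_⟩
    rw [← e7, hz]
    simp

open Classical in
/-- the map -/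
noncomputable def f (Ψ : R → k) (a : R) : k :=
  if h : 2 ≤ S.sz a then
    f Ψ (S.struct' h).choose * Ψ (S.struct' h).choose_spec.choose +
      f Ψ (a - (S.struct' h).choose * (S.struct' h).choose_spec.choose)
  else (S.sz_le_one a (by omega)).choose
termination_by S.sz a
decreasing_by
  · exact (S.struct' h).choose_spec.choose_spec.1.sz.2.1
  · exact (S.struct' h).choose_spec.choose_spec.1.sz.2.2.1

theorem f_const (Ψ : R → k) (c : k) : S.f Ψ (c • 1) = c := by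
  have h1 : S.sz (c • (1 : R)) ≤ 1 := by
    have := S.sz_smul_le c 1
    rwa [S.sz_one] at this
  have h : ¬ 2 ≤ S.sz (c • (1 : R)) := by omega
  rw [f, dif_neg h]
  have h2 := (S.sz_le_one (c • (1 : R)) h1).choose_spec
  have h3 : (1 : R) ≠ 0 := S.ne_zero_of_pos S.sz_one.ge
  exact (smul_left_injective k h3 h2).symm

theorem f_zero (Ψ : R → k) : S.f Ψ 0 = 0 := by
  have := S.f_const Ψ 0
  rwa [zero_smul] at this

theorem f_one (Ψ : R → k) : S.f Ψ 1 = 1 := by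
  have := S.f_const Ψ 1
  rwa [one_smul] at this

theorem f_step (Ψ : R → k) {a : R} (h : 2 ≤ S.sz a) :
    ∃ ν s, S.Good a ν s ∧ S.f Ψ a = S.f Ψ ν * Ψ s + S.f Ψ (a - ν * s) := by
  refine ⟨_, _, (S.struct' h).choose_spec.choose_spec.1, ?_⟩
  rw [f, dif_pos h]

theorem f_main (Ψ : R → k) (hΨ : ∀ (a : R) (c x : k), c ≠ 0 → Ψ (c • a + x • 1) = c * Ψ a + x) :
    ∀ (n : ℕ) (a : R), S.sz a = n →
      (∀ ν s, S.Good a ν s → S.f Ψ a = S.f Ψ ν * Ψ s + S.f Ψ (a - ν * s)) ∧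
      (∀ (c : k), ∀ u ∈ S.Np a, ∀ w ∈ S.Np a, S.f Ψ (c • u + w) = c * S.f Ψ u + S.f Ψ w) := by
  intro n
  induction n using Nat.strong_induction_on with
  | _ n ih =>
    have P2 : ∀ a, S.sz a = n → ∀ ν s, S.Good a ν s →
        S.f Ψ a = S.f Ψ ν * Ψ s + S.f Ψ (a - ν * s) := by
      intro a hn ν' s' h'
      obtain ⟨ha, g1', -, g3'⟩ := h'.sz
      have hν1 := S.sz_pos h'.1
      obtain ⟨ν, s, h, e⟩ := S.f_step Ψ (a := a) (by omega)
      obtain ⟨-, g1, -, g3⟩ := h.sz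
      obtain ⟨c, δ, x, hc, hδ, e1, e2, h3⟩ := S.good_uniq h h'
      have L := (ih _ (hn ▸ g1) ν rfl).2
      have hδ' : δ ∈ S.Np ν := Submodule.mem_sup_left hδ
      have m0 := S.self_mem_Np ν
      have m1 : a - ν * s ∈ S.Np ν := h.2.2.1 ▸ h.2.2.2
      have f1 : S.f Ψ ν' = c * S.f Ψ ν + S.f Ψ δ := by rw [e1]; exact L c ν m0 δ hδ'
      have f2 : Ψ s = c * Ψ s' + x := by rw [e2]; exact hΨ s' c x hc
      have f3 : S.f Ψ (δ * s') = S.f Ψ δ * Ψ s' := by
        by_cases h0 : δ = 0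
        · simp [h0, S.f_zero]
        have hl := S.sz_le_of_mem_Np h3
        have := (ih (S.sz (δ * s')) (by omega) _ rfl).1 δ s' (S.good_mul h0 h'.2.1)
        rw [this, sub_self, S.f_zero, add_zero]
      have e3 : a - ν' * s' = (-1 : k) • (δ * s') + (x • ν + (a - ν * s)) := by
        rw [e1, e2]
        simp only [mul_add, add_mul, mul_smul_comm, smul_mul_assoc, mul_one, neg_smul, one_smul]
        abel
      have f4 : S.f Ψ (a - ν' * s') =
          -1 * S.f Ψ (δ * s') + (x * S.f Ψ ν + S.f Ψ (a - ν * s)) := by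
        rw [e3, L _ _ h3 _ (Submodule.add_mem _ (Submodule.smul_mem _ _ m0) m1), L _ _ m0 _ m1]
      rw [e, f1, f2, f4, f3]
      ring
    intro a hn
    refine ⟨P2 a hn, ?_⟩
    by_cases h2 : 2 ≤ S.sz a
    · obtain ⟨ν, s, h, e⟩ := S.f_step Ψ h2
      obtain ⟨ha, g1, -, g3⟩ := h.sz
      have L := (ih _ (hn ▸ g1) ν rfl).2
      rw [← h.2.2.1] at L
      have A : ∀ (c : k), ∀ u ∈ S.N a, S.f Ψ (c • a + u) = c * S.f Ψ a + S.f Ψ u := by
        intro c u hu
        by_cases hc : c = 0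
        · simp [hc]
        have hN := S.N_affine ha hu hc
        have e1 : c • a + u - ν * (c • s) = c • (a - ν * s) + u := by
          simp only [mul_smul_comm, smul_sub]; abel
        have hG : S.Good (c • a + u) ν (c • s) := by
          refine ⟨h.1, S.At_smul h.2.1 hc, hN.trans h.2.2.1, ?_⟩
          rw [hN, e1]
          exact Submodule.add_mem _ (Submodule.smul_mem _ _ h.2.2.2) hu
        have hs : S.sz (c • a + u) = n := by
          rw [S.sz_add_of_lt, S.sz_smul hc, hn]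
          rw [S.sz_smul hc]
          exact S.sz_lt_of_mem_N ha hu
        have f2 : Ψ (c • s) = c * Ψ s := by simpa using hΨ s c 0 hc
        rw [P2 _ hs _ _ hG, e1, L c _ h.2.2.2 _ hu, f2, e]
        ring
      intro c u hu w hw
      obtain ⟨c1, u1, hu1, rfl⟩ := S.mem_Np.1 hu
      obtain ⟨c2, u2, hu2, rfl⟩ := S.mem_Np.1 hw
      have e1 : c • (c1 • a + u1) + (c2 • a + u2) = (c * c1 + c2) • a + (c • u1 + u2) := by
        simp only [smul_add, add_smul, smul_smul]; abel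
      rw [e1, A _ _ (Submodule.add_mem _ (Submodule.smul_mem _ _ hu1) hu2), A _ _ hu1, A _ _ hu2,
        L c _ hu1 _ hu2]
      ring
    · intro c u hu w hw
      obtain ⟨x, rfl⟩ := S.sz_le_one u (by have := S.sz_le_of_mem_Np hu; omega)
      obtain ⟨y, rfl⟩ := S.sz_le_one w (by have := S.sz_le_of_mem_Np hw; omega)
      rw [smul_smul, ← add_smul, S.f_const, S.f_const, S.f_const]

theorem exists_brachy (Ψ : R → k)
    (hΨ : ∀ (a : R) (c x : k), c ≠ 0 → Ψ (c • a + x • 1) = c * Ψ a + x) :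
    ∃ f : R → k, (∀ a, f (1 + a) = 1 + f a) ∧ (∀ a b, f (a * b) = f a * f b) ∧
      ∀ t, S.sz t = 2 → f t = Ψ t := by
  have P2 := fun a => (S.f_main Ψ hΨ _ a rfl).1
  have P1 := fun a => (S.f_main Ψ hΨ _ a rfl).2
  have hat : ∀ p t, S.At t → S.f Ψ (p * t) = S.f Ψ p * Ψ t := by
    intro p t ht
    by_cases hp : p = 0
    · simp [hp, S.f_zero]
    rw [P2 _ _ _ (S.good_mul hp ht), sub_self, S.f_zero, add_zero]
  refine ⟨S.f Ψ, ?_, ?_, ?_⟩
  · intro a
    by_cases h2 : 2 ≤ S.sz a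
    · have := P1 a 1 1 (Submodule.mem_sup_left (S.one_mem_N h2)) a (S.self_mem_Np a)
      simpa [S.f_one] using this
    · obtain ⟨x, rfl⟩ := S.sz_le_one a (by omega)
      have : (1 : R) + x • 1 = (1 + x) • 1 := by rw [add_smul, one_smul]
      rw [this, S.f_const, S.f_const]
  · intro a b
    by_cases ha : a = 0
    · simp [ha, S.f_zero]
    induction hn : S.sz b using Nat.strong_induction_on generalizing b with
    | _ n ih =>
      by_cases h2 : 2 ≤ S.sz b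
      · obtain ⟨ν, s, h, e⟩ := S.f_step Ψ h2
        obtain ⟨hb, g1, g2, -⟩ := h.sz
        have m1 : a * (b - ν * s) ∈ S.Np (a * b) :=
          Submodule.mem_sup_left (S.mul_mem_N ha hb h.2.2.2)
        have := P1 (a * b) (-1) _ m1 _ (S.self_mem_Np _)
        have e1 : (-1 : k) • (a * (b - ν * s)) + a * b = a * ν * s := by
          simp only [neg_smul, one_smul, mul_sub, mul_assoc]; abel
        rw [e1, hat _ _ h.2.1, ih _ (hn ▸ g1) ν rfl, ih _ (hn ▸ g2) _ rfl] at this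
        rw [e]
        linear_combination -this
      · obtain ⟨x, rfl⟩ := S.sz_le_one b (by omega)
        have := P1 a x a (S.self_mem_Np a) 0 (Submodule.zero_mem _)
        rw [add_zero, S.f_zero, add_zero] at this
        rw [mul_smul_comm, mul_one, this, S.f_const, mul_comm]
  · intro t ht
    have := hat 1 t (S.At_of_two ht)
    rwa [one_mul, S.f_one, one_mul] at this

end Setup

end Pool.Agent.H.MP_0e398f_al
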