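import Pool.Agent.H.MP_0e398f_al.C

namespace Pool.Agent.H.MP_0e398f_al

open MonoidAlgebra

variable {k α : Type*} [Field k]

/-- degree plus one -/
noncomputable def sz (a : MonoidAlgebra k (FreeMonoid α)) : ℕ :=
  a.coeff.support.sup fun w => w.length + 1

theorem sz_le_iff {a : MonoidAlgebra k (FreeMonoid α)} {n : ℕ} :
    sz a ≤ n ↔ ∀ w, a.coeff w ≠ 0 → w.length + 1 ≤ n := by
  simp [sz, Finset.sup_le_iff]

theorem le_sz {a : MonoidAlgebra k (FreeMonoid α)} {w : FreeMonoid α} (h : a.coeff w ≠ 0) :
    w.length + 1 ≤ sz a := sz_le_iff.1 le_rfl w h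

theorem exists_top {a : MonoidAlgebra k (FreeMonoid α)} (h : a ≠ 0) :
    ∃ w, a.coeff w ≠ 0 ∧ w.length + 1 = sz a := by
  have hne : a.coeff.support.Nonempty := by
    rw [Finsupp.support_nonempty_iff]
    simpa using h
  obtain ⟨w, hw, e⟩ := Finset.exists_mem_eq_sup _ hne fun w : FreeMonoid α => w.length + 1
  exact ⟨w, Finsupp.mem_support_iff.1 hw, e.symm⟩

theorem sz_eq_zero (a : MonoidAlgebra k (FreeMonoid α)) : sz a = 0 ↔ a = 0 := by
  constructor
  · intro h
    by_contra h0
    obtain ⟨w, -, e⟩ := exists_top h0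
    omega
  · rintro rfl
    simp [sz]

theorem coeff_top (a b : MonoidAlgebra k (FreeMonoid α)) (u v : FreeMonoid α)
    (hu : sz a ≤ u.length + 1) (hv : sz b ≤ v.length + 1) :
    (a * b).coeff (u * v) = a.coeff u * b.coeff v := by
  apply coeff_mul_mul_of_uniqueMul
  intro u' v' hu' hv' e
  have h1 := le_sz (Finsupp.mem_support_iff.1 hu')
  have h2 := le_sz (Finsupp.mem_support_iff.1 hv')
  have h3 := congrArg FreeMonoid.length e
  rw [FreeMonoid.length_mul, FreeMonoid.length_mul] at h3
  exact List.append_inj (s₁ := u') (t₁ := v') (s₂ := u) (t₂ := v) e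
    (show u'.length = u.length by omega)

theorem sz_mul_le (a b : MonoidAlgebra k (FreeMonoid α)) : sz (a * b) ≤ sz a + sz b - 1 := by
  classical
  rw [sz_le_iff]
  intro w hw
  have := support_coeff_mul_subset a b (Finsupp.mem_support_iff.2 hw)
  obtain ⟨u, hu, v, hv, rfl⟩ := Finset.mem_mul.1 this
  have h1 := le_sz (Finsupp.mem_support_iff.1 hu)
  have h2 := le_sz (Finsupp.mem_support_iff.1 hv)
  rw [FreeMonoid.length_mul]
  omega

theorem sz_mul (a b : MonoidAlgebra k (FreeMonoid α)) (ha : a ≠ 0) (hb : b ≠ 0) :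
    sz (a * b) + 1 = sz a + sz b := by
  obtain ⟨u, hu, e1⟩ := exists_top ha
  obtain ⟨v, hv, e2⟩ := exists_top hb
  have h1 := sz_mul_le a b
  have h2 : (a * b).coeff (u * v) ≠ 0 := by
    rw [coeff_top a b u v e1.ge e2.ge]
    exact mul_ne_zero hu hv
  have h3 := le_sz h2
  rw [FreeMonoid.length_mul] at h3
  omega

theorem sz_add (a b : MonoidAlgebra k (FreeMonoid α)) : sz (a + b) ≤ max (sz a) (sz b) := by
  rw [sz_le_iff]
  intro w hw
  by_cases h : a.coeff w = 0
  · have : b.coeff w ≠ 0 := by simpa [h] using hw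
    exact (le_sz this).trans (le_max_right _ _)
  · exact (le_sz h).trans (le_max_left _ _)

theorem sz_smul_le (c : k) (a : MonoidAlgebra k (FreeMonoid α)) : sz (c • a) ≤ sz a := by
  rw [sz_le_iff]
  intro w hw
  apply le_sz
  intro h
  simp [h] at hw

theorem sz_single (w : FreeMonoid α) {c : k} (hc : c ≠ 0) :
    sz (single w c) = w.length + 1 := by
  simp [sz, Finsupp.support_single_ne_zero _ hc]

theorem split_word (w : FreeMonoid α) (n : ℕ) (h : n ≤ w.length) :
    ∃ u v : FreeMonoid α, w = u * v ∧ u.length = n :=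
  ⟨FreeMonoid.ofList (List.take n w.toList), FreeMonoid.ofList (List.drop n w.toList),
    (List.take_append_drop n w.toList).symm, List.length_take_of_le h⟩

theorem weak (a b c d : MonoidAlgebra k (FreeMonoid α)) (h : sz (a * b - c * d) < sz (a * b))
    (hc : sz c ≤ sz a) : ∃ t, sz (a - c * t) < sz a := by
  have hab : a * b ≠ 0 := by
    intro h0
    rw [h0, (sz_eq_zero 0).2 rfl] at h
    omega
  have ha : a ≠ 0 := left_ne_zero_of_mul hab
  have hb : b ≠ 0 := right_ne_zero_of_mul hab
  have h1 := sz_mul a b ha hb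
  have hcd : sz (c * d) = sz (a * b) := by
    have q1 := sz_add (a * b - c * d) (c * d)
    rw [sub_add_cancel] at q1
    have q2 := sz_add (a * b) ((-1 : k) • (a * b - c * d))
    have q3 := sz_smul_le (-1 : k) (a * b - c * d)
    have e : a * b + (-1 : k) • (a * b - c * d) = c * d := by simp
    rw [e] at q2
    omega
  have hcd0 : c * d ≠ 0 := by
    intro h0
    rw [h0, (sz_eq_zero 0).2 rfl] at hcd
    omega
  have h2 := sz_mul c d (left_ne_zero_of_mul hcd0) (right_ne_zero_of_mul hcd0)
  have hc1 : sz c ≠ 0 := (sz_eq_zero c).not.2 (left_ne_zero_of_mul hcd0)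
  obtain ⟨w2, hw2, e2⟩ := exists_top hb
  let t : MonoidAlgebra k (FreeMonoid α) :=
    (b.coeff w2)⁻¹ • comapDomain (fun v => v * w2) (mul_left_injective w2) d
  have ht : ∀ v, t.coeff v = (b.coeff w2)⁻¹ * d.coeff (v * w2) := by
    intro v
    simp [t]
  have hts : sz t ≤ sz a - sz c + 1 := by
    rw [sz_le_iff]
    intro v hv
    rw [ht] at hv
    have := le_sz (right_ne_zero_of_mul hv)
    rw [FreeMonoid.length_mul] at this
    omega
  refine ⟨t, ?_⟩
  have ha1 : sz a ≠ 0 := (sz_eq_zero a).not.2 ha
  have : sz (a - c * t) ≤ sz a - 1 := by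
    rw [sz_le_iff]
    intro w hw
    have q0 : sz (a - c * t) ≤ sz a := by
      have q1 := sz_add a ((-1 : k) • (c * t))
      have q2 := sz_smul_le (-1 : k) (c * t)
      have q3 := sz_mul_le c t
      have e : a + (-1 : k) • (c * t) = a - c * t := by simp [sub_eq_add_neg]
      rw [e] at q1
      omega
    have q4 := le_sz hw
    by_contra hne
    have hl : w.length + 1 = sz a := by omega
    obtain ⟨u, v, rfl, hu⟩ := split_word w (sz c - 1) (by omega)
    rw [FreeMonoid.length_mul] at hl
    have r1 := coeff_top a b (u * v) w2 (by rw [FreeMonoid.length_mul]; omega) e2.ge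
    have r2 := coeff_top c d u (v * w2) (by omega) (by rw [FreeMonoid.length_mul]; omega)
    have r3 := coeff_top c t u v (by omega) (by omega)
    have r4 : (a * b - c * d).coeff (u * v * w2) = 0 := by
      by_contra r
      have := le_sz r
      rw [FreeMonoid.length_mul, FreeMonoid.length_mul] at this
      omega
    rw [coeff_sub, Finsupp.sub_apply, r1, mul_assoc, r2] at r4
    apply hw
    rw [coeff_sub, Finsupp.sub_apply, r3, ht]
    field_simp
    linear_combination r4
  omega

/-- reversal of words -/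
noncomputable def rev : MonoidAlgebra k (FreeMonoid α) →ₗ[k] MonoidAlgebra k (FreeMonoid α) where
  toFun := mapDomain FreeMonoid.reverse
  map_add' := mapDomain_add _
  map_smul' := by
    intro c a
    ext
    simp [mapDomain, Finsupp.mapDomain_smul]

theorem rev_single (w : FreeMonoid α) (c : k) : rev (single w c) = single w.reverse c :=
  mapDomain_single

theorem rev_mul (a b : MonoidAlgebra k (FreeMonoid α)) : rev (a * b) = rev b * rev a := by
  induction a using induction_linear with
  | zero => simp
  | add x y hx hy => simp [add_mul, mul_add, hx, hy]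
  | single u c =>
    induction b using induction_linear with
    | zero => simp
    | add x y hx hy => simp [add_mul, mul_add, hx, hy]
    | single v d =>
      simp only [single_mul_single, rev_single, FreeMonoid.reverse_mul, mul_comm c d]

theorem rev_rev (a : MonoidAlgebra k (FreeMonoid α)) : rev (rev a) = a := by
  induction a using induction_linear with
  | zero => simp
  | add x y hx hy => simp [hx, hy]
  | single u c => simp only [rev_single, FreeMonoid.reverse_reverse]

theorem sz_rev_le (a : MonoidAlgebra k (FreeMonoid α)) : sz (rev a) ≤ sz a := by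
  classical
  rw [sz_le_iff]
  intro w hw
  have h1 : w ∈ (Finsupp.mapDomain FreeMonoid.reverse a.coeff).support :=
    Finsupp.mem_support_iff.2 hw
  obtain ⟨u, hu, rfl⟩ := Finset.mem_image.1 (Finsupp.mapDomain_support h1)
  rw [FreeMonoid.length_reverse]
  exact le_sz (Finsupp.mem_support_iff.1 hu)

/-- the free algebra setup -/
noncomputable def freeSetup (k α : Type*) [Field k] :
    Setup k (MonoidAlgebra k (FreeMonoid α)) where
  sz := sz
  st := rev
  st_mul := rev_mul
  st_st := rev_rev
  st_one := by rw [one_def, rev_single]; rfl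
  sz_st := fun a => le_antisymm (sz_rev_le a) (by
    have := sz_rev_le (rev a)
    rwa [rev_rev] at this)
  sz_eq_zero := sz_eq_zero
  sz_add := sz_add
  sz_smul_le := sz_smul_le
  sz_mul := sz_mul
  sz_le_one := by
    intro a h
    refine ⟨a.coeff 1, ?_⟩
    ext w
    by_cases hw : w = 1
    · simp [hw]
    · have h1 : a.coeff w = 0 := by
        by_contra h0
        have := le_sz h0
        exact hw (FreeMonoid.length_eq_zero.1 (by omega))
      simp [h1, one_def, Finsupp.single_apply, Ne.symm hw]
  sz_one := by rw [one_def, sz_single _ one_ne_zero]; rfl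
  weak := weak

theorem exists_f (k : Type*) [Field k] :
    ∃ f : MonoidAlgebra k (FreeMonoid (Fin 2)) → k, (∀ a, f (1 + a) = 1 + f a) ∧
      (∀ a b, f (a * b) = f a * f b) ∧ f (single (FreeMonoid.of 0) 1) = 0 ∧
      f (single (FreeMonoid.of 1) 1) = 0 ∧
      f (single (FreeMonoid.of 0) 1 + single (FreeMonoid.of 1) 1) = 1 := by
  classical
  let x : FreeMonoid (Fin 2) := FreeMonoid.of 0
  let y : FreeMonoid (Fin 2) := FreeMonoid.of 1
  have hxy : x ≠ y := by
    intro h
    have := FreeMonoid.of_injective h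
    simp at this
  have hx1 : x ≠ 1 := FreeMonoid.of_ne_one _
  have hy1 : y ≠ 1 := FreeMonoid.of_ne_one _
  let Ψ : MonoidAlgebra k (FreeMonoid (Fin 2)) → k := fun a =>
    a.coeff 1 + if a.coeff x = a.coeff y then a.coeff x else 0
  obtain ⟨f, h1, h2, h3⟩ := (freeSetup k (Fin 2)).exists_brachy Ψ (by
    intro a c d hc
    simp only [Ψ, one_def, coeff_add, coeff_smul, coeff_single, Finsupp.add_apply,
      Finsupp.smul_apply, Finsupp.single_apply, hx1.symm, hy1.symm, if_false, if_true,
      smul_eq_mul, mul_zero, add_zero, mul_one, mul_right_inj' hc]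
    split_ifs <;> ring)
  refine ⟨f, h1, h2, ?_, ?_, ?_⟩
  · rw [h3 _ (sz_single x one_ne_zero)]
    simp [Ψ, Finsupp.single_apply, hx1, hxy]
  · rw [h3 _ (sz_single y one_ne_zero)]
    simp [Ψ, Finsupp.single_apply, hy1, hxy.symm]
  · have : sz (single x (1 : k) + single y 1) = 2 := by
      apply le_antisymm
      · have := sz_add (single x (1 : k)) (single y 1)
        rwa [sz_single x one_ne_zero, sz_single y one_ne_zero] at this
      · apply le_sz (w := x)
        simp [Finsupp.single_apply, hxy.symm]
    rw [h3 _ this]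
    simp [Ψ, Finsupp.single_apply, hx1, hy1, hxy, hxy.symm]

end Pool.Agent.H.MP_0e398f_al
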